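import Pool.Agent.W498.Dom.Defs
import Pool.Agent.W537.OneCycleDefs
import Pool.Agent.H914R2.HodgeDefs

/-!
# Restriction of cohomology to a geometric fibre: definitions
-/

open CategoryTheory AlgebraicGeometry

universe u₁ v₁ u v

namespace Pool.Agent.Y106.Fib

section Alg

variable {K K' A B : Type*} [Field K] [Field K'] [Ring A] [Ring B] [Algebra K A] [Algebra K' B]

/-- The homomorphism `ρ` is semilinear for the homomorphism `σ` of the coefficient fields, and
preserves the degrees. -/
structure IsGradedHom (σ : K →+* K') (ρ : A →+* B) (gr : ℕ → Submodule K A)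
    (gr' : ℕ → Submodule K' B) : Prop where
  smul : ∀ (c : K) (x : A), ρ (c • x) = σ c • ρ x
  mem : ∀ (j : ℕ) (x : A), x ∈ gr j → ρ x ∈ gr' j

/-- The homomorphism `ρ` is zero on `piece p ∩ gr j` unless `p = j + m`. -/
def VanishesOff (piece gr : ℕ → Submodule K A) (m : ℕ) (ρ : A →+* B) : Prop :=
  ∀ p j : ℕ, p ≠ j + m → ∀ x ∈ piece p, x ∈ gr j → ρ x = 0

end Alg

open Pool.Agent.H914 Pool.Agent.W498.Dom VarClass Obj WeilCohomology

variable {k₀ : Type u₁} [Field k₀] {𝒱₀ : VarClass k₀} {ops₀ : CycleOps 𝒱₀}
  {W₀ : WeilCohomology.{u₁, v₁} ops₀} {Z S : 𝒱₀.Obj} {g : Z ⟶ S} {G : S.Cycles} {E : Z.Cycles}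
  {k : Type u} [Field k] {𝒱 : VarClass k} {ops : CycleOps 𝒱}

/-- The map `ρ` maps classes of cycles of codimension `p` to classes of cycles of codimension
`p`. -/
def MapsCycles (W₀ : WeilCohomology.{u₁, v₁} ops₀) (Z : 𝒱₀.Obj) (W : WeilCohomology.{u, v} ops)
    (Y : 𝒱.Obj) (ρ : W₀.H Z → W.H Y) : Prop :=
  ∀ (p : ℕ) (z : Z.Cycles), Z.IsCyc p z → ∃ w, Y.IsCyc p w ∧ W.cl Y w = ρ (W₀.cl Z z)

/-- The restriction of the cohomology of the variety `Z` over the field `k₀` to a variety `Y` over
the field `k`. In the intended use `Y` is the fibre of the morphism `g : Z ⟶ S` over a geometric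
point of `S` above which `g` is smooth, with values in the extension `k` of `k₀` (for example a
closed point, or the geometric generic point), and `ρ` is the restriction. The map `ρ` is a
homomorphism of rings which is semilinear for a homomorphism `σ` of the coefficient fields,
preserves the degrees, and maps classes of cycles to classes of cycles. It factors through the stalk
of the direct image at the point: near the point the perverse cohomology sheaf `R_p` of the direct
image is a local system placed in degree `- dim S`, so that the contribution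
`H^(j - p)(S, R_p)` to `H^j(Z)` restricts to zero unless `p = j + dim S`. -/
structure FibreRestriction (Q : PerverseDecomposition W₀ g G E) (W : WeilCohomology.{u, v} ops)
    (Y : 𝒱.Obj) where
  /-- the homomorphism of the coefficient fields -/
  σ : W₀.K →+* W.K
  /-- the restriction -/
  ρ : W₀.H Z →+* W.H Y
  isGradedHom : IsGradedHom σ ρ (W₀.gr Z) (W.gr Y)
  mapsCycles : MapsCycles W₀ Z W Y ρ
  vanishes : VanishesOff Q.piece (W₀.gr Z) S.dim ρ
  dim_eq : Z.dim = Y.dim + S.dim

/-- The product `X × X` is a fibre of `g` in the sense of `FibreRestriction`, the divisor `E`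
restricts to `D × X + X × D` on it, and the diagonal of `X` is the restriction of a cycle on `Z`
(up to homological equivalence). For example `Z` is a smooth compactification of the relative
square of a family of varieties, and `X` one of its smooth fibres. -/
structure SquareFibre (Q : PerverseDecomposition W₀ g G E) (W : WeilCohomology.{u, v} ops)
    (X : 𝒱.Obj) (D : X.Cycles) extends FibreRestriction Q W (X.prod X) where
  ρ_E : ρ (W₀.cl Z E) = W.cl (X.prod X) (boxSum ops D)
  exists_diag : ∃ Γ, Z.IsCyc X.dim Γ ∧
    ρ (W₀.cl Z Γ) = W.cl (X.prod X) (ops.push (diag X) X.V.fundCycle)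

/-- The conjecture A of Lefschetz type for the variety `Z` and the divisors `g^* G + t E`, for all
sufficiently small rational numbers `t > 0` for which these divisors satisfy hard Lefschetz. -/
def PencilA (W₀ : WeilCohomology.{u₁, v₁} ops₀) (g : Z ⟶ S) (G : S.Cycles) (E : Z.Cycles) : Prop :=
  ∃ ε : ℚ, 0 < ε ∧ ∀ t : ℚ, 0 < t → t < ε → HardLefschetz W₀ Z (ops₀.pull g G + t • E) →
    LefschetzA W₀ Z (ops₀.pull g G + t • E)

/-- There are cycles `Λ i` of codimension `i` on `X × X`, for `i ≤ n = dim X`, which induce the
inverses of `D ^ (n - i) : H^i(X) → H^(2n - i)(X)`, and zero in the other degrees, for all Weil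
cohomology theories `W'` with the same Betti numbers of `X` as `W`. -/
def OneSystem (W : WeilCohomology.{u, v} ops) (X : 𝒱.Obj) (D : X.Cycles) : Prop :=
  ∃ Λ : ℕ → (X.prod X).Cycles, ∀ W' : WeilCohomology.{u, v} ops,
    (∀ i, W'.betti X i = W.betti X i) → ∀ i ≤ X.dim,
      Pool.Agent.W537.InducesInverse W' X D i (Λ i)

end Pool.Agent.Y106.Fib
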