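import Pool.Agent.Y106.Fib.Limit

/-!
# The lowering operators on a graded family of subspaces with hard Lefschetz
-/

open Finset Polynomial

set_option linter.unusedSectionVars false

namespace Pool.Agent.Y106.Fib

open Pool.Agent.H914 Pool.Agent.H447 Pool.Agent.W498.Dom

variable {K : Type*} [Field K] [CharZero K] {V : Type*} [AddCommGroup V] [Module K V]

/-- The graded family of subspaces `C a`, placed in degrees `2 a`. -/
def dbGr (C : ℕ → Submodule K V) (i : ℕ) : Submodule K V := if Even i then C (i / 2) else ⊥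

lemma dbGr_even (C : ℕ → Submodule K V) (a : ℕ) : dbGr C (2 * a) = C a := by
  rw [dbGr, if_pos ⟨a, by ring⟩]
  congr 1
  omega

lemma dbGr_odd (C : ℕ → Submodule K V) {i : ℕ} (hi : ¬ Even i) : dbGr C i = ⊥ := by
  rw [dbGr, if_neg hi]

lemma dbGr_le {gr : ℕ → Submodule K V} {C : ℕ → Submodule K V} (hdeg : ∀ a, C a ≤ gr (2 * a))
    (i : ℕ) : dbGr C i ≤ gr i := by
  by_cases hi : Even i
  · obtain ⟨a, ha⟩ := hi
    obtain rfl : i = 2 * a := by omega
    rw [dbGr_even]
    exact hdeg a
  · rw [dbGr_odd C hi]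
    exact bot_le

/-- If the operator `L` satisfies hard Lefschetz on the subspaces `C a` then the lowering operator
preserves them. -/
theorem lower_of_surj [Module.Finite K V] {gr : ℕ → Submodule K V}
    (igr : DirectSum.IsInternal gr) {M : ℕ} {L f : Module.End K V} (t : Sl2 (wt igr M) L f)
    (hHL : HardLef gr M L) (hbd : ∀ i, 2 * M + 1 ≤ i → gr i = ⊥)
    {C : ℕ → Submodule K V} (hdeg : ∀ a, C a ≤ gr (2 * a))
    (hmem : ∀ a, ∀ x ∈ C a, L x ∈ C (a + 1))
    (hsurj : ∀ j, 2 * j ≤ M → ∀ x ∈ C (M - j), ∃ y ∈ C j, (L ^ (M - 2 * j)) y = x) :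
    ∀ a, ∀ x ∈ C (a + 1), f x ∈ C a := by
  have hL : IsHom (dbGr C) 2 L := by
    intro i x hx
    by_cases hi : i < 0
    · rw [grZ_of_neg hi] at hx
      rw [(Submodule.mem_bot _).1 hx, map_zero]
      exact Submodule.zero_mem _
    · obtain ⟨n, rfl⟩ := Int.eq_ofNat_of_zero_le (not_lt.1 hi)
      rw [grZ_natCast] at hx
      rw [show (n : ℤ) + 2 = ((n + 2 : ℕ) : ℤ) by push_cast; ring, grZ_natCast]
      by_cases he : Even n
      · obtain ⟨a, ha⟩ := he
        obtain rfl : n = 2 * a := by omega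
        rw [dbGr_even] at hx
        rw [show 2 * a + 2 = 2 * (a + 1) by ring, dbGr_even]
        exact hmem a x hx
      · rw [dbGr_odd C he] at hx
        rw [(Submodule.mem_bot _).1 hx, map_zero]
        exact Submodule.zero_mem _
  have hbd' : ∀ i, 2 * M + 1 ≤ i → dbGr C i = ⊥ := fun i hi =>
    le_bot_iff.1 (by rw [← hbd i hi]; exact dbGr_le hdeg i)
  have hHL' : HardLef (dbGr C) M L := by
    intro i hi
    refine ⟨fun x hx h0 => (hHL i hi).1 x (dbGr_le hdeg i hx) h0, fun b hb => ?_⟩
    by_cases he : Even i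
    · obtain ⟨a, ha⟩ := he
      obtain rfl : i = 2 * a := by omega
      rw [show 2 * M - 2 * a = 2 * (M - a) by omega, dbGr_even] at hb
      obtain ⟨y, hy, hyb⟩ := hsurj a hi b hb
      exact ⟨y, by rw [dbGr_even]; exact hy, hyb⟩
    · have he' : ¬ Even (2 * M - i) := by
        intro h
        apply he
        rw [Nat.even_sub (by omega)] at h
        exact h.1 (even_two_mul M)
      rw [dbGr_odd C he'] at hb
      exact ⟨0, Submodule.zero_mem _, by rw [map_zero, (Submodule.mem_bot _).1 hb]⟩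
  have key := lef_induction hL hbd' hHL' (p := fun i x => f x ∈ grZ (dbGr C) ((i : ℤ) - 2))
    (fun i a b ha hb => by rw [map_add]; exact Submodule.add_mem _ ha hb)
    (fun i hi a ha h0 j => by
      have ha' := dbGr_le hdeg i ha
      have h1 : wt igr M a = -((M - i : ℕ) : K) • a := by
        rw [wt_apply igr M ha', Nat.cast_sub hi]
        congr 1
        ring
      have h3 : f a = 0 := Sl2.f_eq_zero t h1 h0
      rcases j with _ | j
      · rw [pow_zero, Module.End.one_apply, h3]; exact Submodule.zero_mem _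
      · rw [Sl2.f_e_pow t h3 h1 j]
        apply Submodule.smul_mem
        rw [show ((i + 2 * (j + 1) : ℕ) : ℤ) - 2 = ((i + 2 * j : ℕ) : ℤ) by push_cast; ring,
          grZ_natCast]
        exact pow_L_mem hL ha j)
  intro a x hx
  have hx' : x ∈ dbGr C (2 * (a + 1)) := by rw [dbGr_even]; exact hx
  have h1 : f x ∈ grZ (dbGr C) (((2 * (a + 1) : ℕ) : ℤ) - 2) := by
    by_cases h2 : 2 * (a + 1) ≤ M
    · have := key _ h2 x hx' 0
      rwa [mul_zero, add_zero, pow_zero, Module.End.one_apply] at this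
    · by_cases h3 : 2 * (a + 1) ≤ 2 * M
      · obtain ⟨y, hy, hyx⟩ := (hHL' (2 * M - 2 * (a + 1)) (by omega)).2 x
          (by rw [show 2 * M - (2 * M - 2 * (a + 1)) = 2 * (a + 1) by omega]; exact hx')
        rw [← hyx]
        have := key _ (by omega) y hy (M - (2 * M - 2 * (a + 1)))
        rwa [show 2 * M - 2 * (a + 1) + 2 * (M - (2 * M - 2 * (a + 1))) = 2 * (a + 1) by omega]
          at this
      · rw [hbd' _ (by omega)] at hx'
        rw [(Submodule.mem_bot _).1 hx', map_zero]
        exact Submodule.zero_mem _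
  rw [show ((2 * (a + 1) : ℕ) : ℤ) - 2 = ((2 * a : ℕ) : ℤ) by push_cast; ring, grZ_natCast,
    dbGr_even] at h1
  exact h1

end Pool.Agent.Y106.Fib
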