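import Pool.Agent.Y106.Fib.Rho
import Pool.Agent.Y106.Fib.LowA
import Pool.Agent.Y106.Fib.Defs
import Pool.Agent.W498.Dom.Main

/-!
# The Lefschetz standard conjecture for the fibres of a family
-/

open CategoryTheory AlgebraicGeometry Finset Polynomial

set_option linter.unusedSectionVars false

universe u₁ v₁ u v

namespace Pool.Agent.Y106.Fib

open Pool.Agent.H914 Pool.Agent.H447 Pool.Agent.W498.Dom VarClass Obj WeilCohomology

section Corr

variable {k : Type u} [Field k] {𝒱 : VarClass k} {ops : CycleOps 𝒱}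
  {W : WeilCohomology.{u, v} ops} {X : 𝒱.Obj}

/-- The operator induced by a class of degree `j` shifts the degrees by `j - 2 dim X`. -/
lemma corr_isHom' {j : ℕ} {c : W.H (X.prod X)} (hc : c ∈ W.gr (X.prod X) j) :
    IsHom (W.gr X) ((j : ℤ) - 2 * X.dim) (W.corr c) := by
  intro i a ha
  by_cases hi : 0 ≤ i
  · lift i to ℕ using hi
    rw [grZ_natCast] at ha
    have h1 := W.push_mem (snd X X) (W.mul_mem hc (W.map_mem (fst X X) ha))
    rw [corr_apply]
    have e : ((j + i : ℕ) : ℤ) + 2 * ((X.dim : ℤ) - (X.prod X).dim) =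
        (i : ℤ) + ((j : ℤ) - 2 * X.dim) := by
      rw [dim_prod]; push_cast; ring
    rwa [e] at h1
  · rw [grZ_of_neg (by omega)] at ha
    rw [(Submodule.mem_bot _).1 ha, map_zero]
    exact Submodule.zero_mem _

/-- The spaces of algebraic classes. -/
lemma spanCycles_le (q : ℕ) : spanCycles W X (q : ℤ) ≤ W.gr X (2 * q) := by
  rw [spanCycles, Submodule.span_le]
  rintro _ ⟨p, hp, z, hz, rfl⟩
  obtain rfl : p = q := by exact_mod_cast hp
  exact W.cl_mem hz

lemma mem_spanCycles {q : ℕ} {z : X.Cycles} (hz : X.IsCyc q z) :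
    W.cl X z ∈ spanCycles W X (q : ℤ) :=
  Submodule.subset_span ⟨q, rfl, z, hz, rfl⟩

lemma mul_spanCycles {q : ℕ} {L : X.Cycles} (hL : X.IsCyc 1 L) {x : W.H X}
    (hx : x ∈ spanCycles W X (q : ℤ)) : W.cl X L * x ∈ spanCycles W X ((q + 1 : ℕ) : ℤ) := by
  induction hx using Submodule.span_induction with
  | mem x hx =>
    obtain ⟨p, hp, z, hz, rfl⟩ := hx
    obtain rfl : p = q := by exact_mod_cast hp
    rw [← W.cl_mul]
    apply mem_spanCycles
    rw [add_comm]
    exact ops.mul_mem hL hz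
  | zero => rw [mul_zero]; exact Submodule.zero_mem _
  | add x y _ _ hx hy => rw [mul_add]; exact Submodule.add_mem _ hx hy
  | smul c x _ hx => rw [mul_smul_comm]; exact Submodule.smul_mem _ _ hx

/-- The conjecture A implies that the lowering operator preserves the spaces of algebraic
classes. -/
theorem lower_of_lefschetzA {L : X.Cycles} (hL : X.IsCyc 1 L) (hHL : HardLefschetz W X L)
    (hA : LefschetzA W X L) {f : Module.End W.K (W.H X)}
    (t : Sl2 (wt (W.isInternal X) X.dim) (LinearMap.mulLeft W.K (W.cl X L)) f) (a : ℕ)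
    (x : W.H X) (hx : x ∈ spanCycles W X ((a + 1 : ℕ) : ℤ)) : f x ∈ spanCycles W X (a : ℤ) := by
  refine lower_of_surj (W.isInternal X) t hHL W_hbd (C := fun a => spanCycles W X (a : ℤ))
    spanCycles_le (fun a x hx => mul_spanCycles hL hx) ?_ a x hx
  intro j hj x hx
  rw [show ((X.dim - j : ℕ) : ℤ) = ((X.dim - j : ℕ) : ℤ) from rfl] at hx
  induction hx using Submodule.span_induction with
  | mem x hx =>
    obtain ⟨p, hp, z, hz, rfl⟩ := hx
    obtain rfl : p = X.dim - j := by exact_mod_cast hp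
    obtain ⟨z', hz', h1⟩ := hA j hj z hz
    refine ⟨_, mem_spanCycles hz', ?_⟩
    rw [← h1, cl_divPow]
  | zero => exact ⟨0, Submodule.zero_mem _, map_zero _⟩
  | add x y _ _ hx hy =>
    obtain ⟨x', hx', rfl⟩ := hx
    obtain ⟨y', hy', rfl⟩ := hy
    exact ⟨x' + y', Submodule.add_mem _ hx' hy', map_add _ _ _⟩
  | smul c x _ hx =>
    obtain ⟨x', hx', rfl⟩ := hx
    exact ⟨c • x', Submodule.smul_mem _ _ hx', map_smul _ _ _⟩

end Corr

section Fib

variable {k₀ : Type u₁} [Field k₀] {𝒱₀ : VarClass k₀} {ops₀ : CycleOps 𝒱₀}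
  {W₀ : WeilCohomology.{u₁, v₁} ops₀} {Z S : 𝒱₀.Obj} {g : Z ⟶ S} {G : S.Cycles} {E : Z.Cycles}
  {Q : PerverseDecomposition W₀ g G E} {k : Type u} [Field k] {𝒱 : VarClass k}
  {ops : CycleOps 𝒱} {W : WeilCohomology.{u, v} ops} {Y X : 𝒱.Obj}

namespace FibreRestriction

variable (R : FibreRestriction Q W Y)

/-- The restriction as a semilinear map. -/
noncomputable def lin : W₀.H Z →ₛₗ[R.σ] W.H Y where
  toFun := R.ρ
  map_add' := map_add R.ρ
  map_smul' := R.isGradedHom.smul

@[simp] lemma lin_apply (x : W₀.H Z) : R.lin x = R.ρ x := rfl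

/-- Restrictions of algebraic classes are algebraic. -/
lemma ρ_span {q : ℕ} {x : W₀.H Z} (hx : x ∈ spanCycles W₀ Z (q : ℤ)) :
    R.ρ x ∈ spanCycles W Y (q : ℤ) := by
  induction hx using Submodule.span_induction with
  | mem x hx =>
    obtain ⟨p, hp, z, hz, rfl⟩ := hx
    obtain rfl : p = q := by exact_mod_cast hp
    obtain ⟨w, hw, hw'⟩ := R.mapsCycles _ z hz
    rw [← hw']
    exact mem_spanCycles hw
  | zero => rw [map_zero]; exact Submodule.zero_mem _
  | add x y _ _ hx hy => rw [map_add]; exact Submodule.add_mem _ hx hy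
  | smul c x _ hx => rw [R.isGradedHom.smul]; exact Submodule.smul_mem _ _ hx

include R

/-- The restriction sees only the part of lowest base weight. -/
lemma ρ_low (hG : S.IsCyc 1 G) (hE : Z.IsCyc 1 E) {j : ℕ} {x : W₀.H Z} (hx : x ∈ W₀.gr Z j) :
    R.ρ x = R.ρ (proj Q.isInternal (j + S.dim) x) := by
  have T := setup Q hG hE rfl
  conv_lhs => rw [T.sumP x]
  rw [map_sum]
  by_cases hr : j + S.dim < 2 * Z.dim + 1
  · rw [Finset.sum_eq_single (j + S.dim)]
    · intro p _ hp
      exact R.vanishes p j hp _ (proj_mem _ _ _) (T.projP_gr hx p)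
    · intro h'; exact absurd (Finset.mem_range.2 hr) h'
  · have h1 := proj_mem Q.isInternal (j + S.dim) x
    rw [dbP Q hG _ (by omega)] at h1
    rw [(Submodule.mem_bot _).1 h1, map_zero]
    apply Finset.sum_eq_zero
    intro p hp
    exact R.vanishes p j (by have := Finset.mem_range.1 hp; omega) _ (proj_mem _ _ _)
      (T.projP_gr hx p)

/-- The restriction of the leading term. -/
lemma ρ_top (hG : S.IsCyc 1 G) (hE : Z.IsCyc 1 E) (x : W₀.H Z) :
    R.ρ (top (setup Q hG hE rfl).iP Z.dim (eop W₀ Z E) x) = R.ρ (W₀.cl Z E) * R.ρ x := by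
  have T := setup Q hG hE rfl
  -- homogeneous elements of the pieces
  have key : ∀ p j, ∀ x ∈ Q.piece p, x ∈ W₀.gr Z j →
      R.ρ (top T.iP Z.dim (eop W₀ Z E) x) = R.ρ (W₀.cl Z E) * R.ρ x := by
    intro p j x hx hj
    rw [top_apply' T.iP T.bP hx]
    have h1 : eop W₀ Z E x ∈ W₀.gr Z (j + 2) := by
      have := pow_L_mem T.egr hj 1
      rwa [pow_one, mul_one] at this
    by_cases hp : p = j + S.dim
    · rw [← map_mul, show W₀.cl Z E * x = eop W₀ Z E x from rfl, R.ρ_low hG hE h1]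
      congr 2
      rw [hp]
      congr 1
      omega
    · rw [R.vanishes p j hp x hx hj, mul_zero]
      exact R.vanishes (p + 2) (j + 2) (by omega) _ (proj_mem _ _ _) (T.projP_gr h1 _)
  refine gr_induction T.iP (p := fun x => R.ρ (top T.iP Z.dim (eop W₀ Z E) x) =
    R.ρ (W₀.cl Z E) * R.ρ x) ?_ ?_ x
  · intro p x hx
    rw [T.sumG x, map_sum, map_sum, map_sum, Finset.mul_sum]
    apply Finset.sum_congr rfl
    intro j _
    exact key p j _ (dhom Q p j x hx) (proj_mem _ _ _)
  · intro a b ha hb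
    rw [map_add, map_add, ha, hb, map_add, mul_add]

end FibreRestriction

/-- The parameters of the pencil. -/
def params (K : Type*) [Field K] (ε : ℚ) : Set K := {s | ∃ r : ℚ, 0 < r ∧ r ^ 2 < ε ∧ s = (r : K)}

lemma params_infinite (K : Type*) [Field K] [CharZero K] {ε : ℚ} (hε : 0 < ε) :
    (params K ε).Infinite := by
  obtain ⟨N, hN⟩ := exists_nat_gt (1 / ε)
  have hinj : Function.Injective (fun n : ℕ => (((1 : ℚ) / ((n : ℚ) + N + 1) : ℚ) : K)) := by
    intro a b hab
    have h1 : (1 : ℚ) / ((a : ℚ) + N + 1) = 1 / ((b : ℚ) + N + 1) := Rat.cast_injective hab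
    have ha : (0 : ℚ) < (a : ℚ) + N + 1 := by positivity
    have hb : (0 : ℚ) < (b : ℚ) + N + 1 := by positivity
    rw [div_eq_div_iff ha.ne' hb.ne'] at h1
    have h2 : (a : ℚ) = b := by linarith
    exact_mod_cast h2
  apply (Set.infinite_range_of_injective hinj).mono
  rintro _ ⟨n, rfl⟩
  have ha : (0 : ℚ) < (n : ℚ) + N + 1 := by positivity
  refine ⟨1 / ((n : ℚ) + N + 1), by positivity, ?_, rfl⟩
  have h1 : (1 : ℚ) / ((n : ℚ) + N + 1) ≤ 1 := by
    rw [div_le_one ha]
    have : (0 : ℚ) ≤ (n : ℚ) + N := by positivity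
    linarith
  have h2 : (1 : ℚ) / ((n : ℚ) + N + 1) < ε := by
    rw [div_lt_iff₀ ha]
    rw [div_lt_iff₀ hε] at hN
    have : (0 : ℚ) ≤ ((n : ℚ) + 1) * ε := by positivity
    nlinarith
  have h3 : (0 : ℚ) < 1 / ((n : ℚ) + N + 1) := by positivity
  nlinarith

/-- The conjecture A for the members of the pencil. -/
theorem stable_of_A (hG : S.IsCyc 1 G) (hE : Z.IsCyc 1 E) {ε : ℚ} (hε : 0 < ε)
    (hA : ∀ t : ℚ, 0 < t → t < ε → HardLefschetz W₀ Z (ops₀.pull g G + t • E) →
      LefschetzA W₀ Z (ops₀.pull g G + t • E)) :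
    Stable (W₀.gr Z) Z.dim (hop W₀ g G) (eop W₀ Z E) (W₀.isInternal Z)
      (fun a => spanCycles W₀ Z (a : ℤ)) (params W₀.K ε) where
  deg := spanCycles_le
  hmem := fun a x hx => by
    have := mul_spanCycles (ops₀.pull_mem g hG) hx
    rwa [W₀.cl_pull] at this
  inf := params_infinite W₀.K hε
  lower := by
    rintro _ ⟨r, hr, hrε, rfl⟩ _ hHL
    have hL : Z.IsCyc 1 (ops₀.pull g G + (r ^ 2) • E) := (ops₀.pull_mem g hG).add (hE.smul _)
    have h1 : hop W₀ g G + ((r : ℚ) : W₀.K) ^ 2 • eop W₀ Z E =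
        LinearMap.mulLeft W₀.K (W₀.cl Z (ops₀.pull g G + (r ^ 2) • E)) := by
      apply LinearMap.ext
      intro x
      rw [LinearMap.add_apply, LinearMap.smul_apply, LinearMap.mulLeft_apply,
        LinearMap.mulLeft_apply, LinearMap.mulLeft_apply, map_add, W₀.cl_pull, cl_smul, add_mul,
        smul_mul_assoc]
      push_cast
      rfl
    rw [h1] at hHL ⊢
    obtain ⟨f, t, -⟩ := exists_sl2 (W₀.isInternal Z) (mulLeft_isHom hL) W_hbd hHL
    exact ⟨f, t, lower_of_lefschetzA hL hHL (hA _ (by positivity) hrε hHL) t⟩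

/-- **The Lefschetz standard conjecture for the fibres of a family.** -/
theorem lefschetzB_of_fibre (hG : S.IsCyc 1 G) (hE : Z.IsCyc 1 E) (hA : PencilA W₀ g G E)
    {D : X.Cycles} (hD : X.IsCyc 1 D) (hHL : HardLefschetz W X D) (R' : SquareFibre Q W X D) :
    LefschetzB W X D := by
  obtain ⟨ε, hε, hA⟩ := hA
  obtain ⟨Γ, hΓ, hRΓ⟩ := R'.exists_diag
  have hRE := R'.ρ_E
  set R : FibreRestriction Q W (X.prod X) := R'.toFibreRestriction with hR
  have T := setup Q hG hE rfl
  have hdim : ∀ c ≤ Z.dim, Module.finrank W₀.K (W₀.gr Z (Z.dim - c)) =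
      Module.finrank W₀.K (W₀.gr Z (Z.dim + c)) := by
    intro c hc
    have := betti_symm (X := Z) W₀ (i := Z.dim - c) (by omega)
    rw [show 2 * Z.dim - (Z.dim - c) = Z.dim + c by omega] at this
    exact this.symm
  have hZd : Z.dim = X.dim + X.dim + S.dim := by rw [R.dim_eq, dim_prod]
  -- the nilpotence of the class of the base
  have hm : hop W₀ g G ^ (S.dim + 1) = 0 := by
    apply LinearMap.ext
    intro x
    rw [hop_pow]
    have h1 := xi_mem (W := W₀) hG (S.dim + 1)
    rw [W₀.gr_eq_bot S _ (by omega)] at h1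
    rw [(Submodule.mem_bot _).1 h1, map_zero, zero_mul, LinearMap.zero_apply]
  obtain ⟨Λ, Λ', t1, -, hΛ', t, hc, hΛP, -, hform⟩ := exists_both T
  -- the lowering operator of the fibre
  have hLh := mulLeft_isHom (W := W) hD
  obtain ⟨f, tf, -, -⟩ := exists_sl2 (W.isInternal X) hLh W_hbd hHL
  have h1c : W.corr (W.cl (X.prod X) (ops.push (diag X) X.V.fundCycle)) = 1 := by
    apply LinearMap.ext
    intro a
    rw [W.cl_push, W.cl_fund, corr_diag, one_mul, Module.End.one_apply]
  have hf : 1 ≤ X.dim → f ∈ KOp W X X (-1) := by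
    intro hn
    obtain ⟨a, ha⟩ : ∃ a, X.dim = a + 1 := ⟨X.dim - 1, by omega⟩
    obtain ⟨y, hy, hyU⟩ := limit T (stable_of_A hG hE hε hA) hdim hm t1 hΛ' t hc hΛP
      (a := a) (b := 1) (U := W₀.cl Z Γ) (mem_spanCycles (ha ▸ hΓ))
    -- the semilinear map
    set φ : W₀.H Z →ₛₗ[R.σ] Module.End W.K (W.H X) :=
      { toFun := fun x => W.corr (R.ρ x)
        map_add' := fun x y => by rw [map_add, corr_add]
        map_smul' := fun c x => by rw [R.isGradedHom.smul, corr_smul] } with hφ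
    have hφa : ∀ x, φ x = W.corr (R.ρ x) := fun x => rfl
    have hφH : ∀ p, ∀ x ∈ Q.piece p,
        (LinearMap.mulLeft W.K (wt (W.isInternal X) X.dim) -
          LinearMap.mulRight W.K (wt (W.isInternal X) X.dim)) (φ x) =
          ((p : W.K) - Z.dim) • φ x := by
      intro p x hx
      have key : ∀ j, ∀ x ∈ Q.piece p, x ∈ W₀.gr Z j →
          (LinearMap.mulLeft W.K (wt (W.isInternal X) X.dim) -
            LinearMap.mulRight W.K (wt (W.isInternal X) X.dim)) (φ x) =
            ((p : W.K) - Z.dim) • φ x := by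
        intro j x hx hj
        by_cases hp : p = j + S.dim
        · rw [hφa, weight_dbl (W.isInternal X) (corr_isHom' (R.isGradedHom.mem j x hj))]
          congr 1
          rw [hp, hZd]
          push_cast; ring
        · rw [hφa, R.vanishes p j hp x hx hj]
          have : W.corr (0 : W.H (X.prod X)) = 0 := by
            have := corr_smul (W := W) (0 : W.K) (0 : W.H (X.prod X))
            simpa using this
          rw [this, map_zero, smul_zero]
      rw [T.sumG x, map_sum, map_sum, Finset.smul_sum]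
      apply Finset.sum_congr rfl
      intro j _
      exact key j _ (dhom Q p j x hx) (proj_mem _ _ _)
    have hφe : ∀ x, φ (top T.iP Z.dim (eop W₀ Z E) x) =
        dbl (LinearMap.mulLeft W.K (W.cl X D)) (φ x) := by
      intro x
      rw [hφa, hφa, R.ρ_top hG hE, hRE, corr_boxSum hD]
    have hint := intertwine_lower T φ (sl2_dbl tf) hφH hφe hform
    have hlow : ∀ j x, x ∈ W₀.gr Z j → φ x = φ (proj Q.isInternal (j + S.dim) x) := by
      intro j x hx
      rw [hφa, hφa, R.ρ_low hG hE hx]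
    have e1 : φ y = dbl f (1 : Module.End W.K (W.H X)) := by
      rw [hlow (2 * a) y (spanCycles_le a hy), hyU, pow_one, hint]
      congr 1
      rw [← hlow (2 * (a + 1)) _ (W₀.cl_mem (by rw [← ha]; exact hΓ)), hφa, hRΓ, h1c]
    have e2 : (2 : W.K) • f ∈ KOp W X X (-1) := by
      rw [mem_KOp_iff]
      refine ⟨R.ρ y, ?_, ?_⟩
      · have := R.ρ_span hy
        rwa [show (X.dim : ℤ) + -1 = (a : ℤ) by rw [ha]; push_cast; ring]
      · rw [← hφa, e1, dbl_apply, mul_one, one_mul, two_smul]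
    have e3 := Submodule.smul_mem _ (2 : W.K)⁻¹ e2
    rwa [smul_smul, inv_mul_cancel₀ two_ne_zero, one_smul] at e3
  apply lefschetzB_of_inj hD hHL
  intro c hc'
  refine ⟨f ^ c, ?_, ?_⟩
  · rcases Nat.eq_zero_or_pos c with rfl | hc0
    · rw [pow_zero]
      exact KOp.cast (KOp.id X) (by simp)
    · have := (rop_opAlg (W := W) (X := X)).kspan.pow (mem_KS_iff.2 (hf (by omega))) c
      exact KOp.cast (mem_KS_iff.1 this) (by ring)
  · intro a ha h0
    apply f_pow_inj tf (c := c) _ h0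
    rw [wt_apply (W.isInternal X) X.dim ha]
    congr 1
    push_cast; ring

end Fib

end Pool.Agent.Y106.Fib
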