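import Pool.Agent.W498.Dom.Core

/-!
# The limit of the Lefschetz operators on the part of lowest base weight
-/

open Finset Polynomial

set_option linter.unusedSectionVars false

namespace Pool.Agent.Y106.Fib

open Pool.Agent.H914 Pool.Agent.H447 Pool.Agent.W498.Dom

variable {K : Type*} [Field K] [CharZero K] {V : Type*} [AddCommGroup V] [Module K V]

/-- A polynomial family of vectors which lies in a subspace for infinitely many parameters lies
in it for all parameters. -/
lemma pvec_mem {v : K → V} (hv : PVec v) (C : Submodule K V) {T : Set K} (hT : T.Infinite)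
    (h : ∀ s ∈ T, v s ∈ C) (s : K) : v s ∈ C := by
  by_contra hs
  obtain ⟨l, hl, hlC⟩ : ∃ l : V →ₗ[K] K, l (v s) ≠ 0 ∧ ∀ x ∈ C, l x = 0 := by
    obtain ⟨l, hl1, hl2⟩ := Submodule.exists_le_ker_of_notMem hs
    exact ⟨l, hl1, fun x hx => hl2 hx⟩
  obtain ⟨q, hq⟩ := hv l
  have hq0 : q = 0 := by
    apply Polynomial.eq_zero_of_infinite_isRoot
    apply hT.mono
    intro r hr
    change q.eval r = 0
    rw [← hq, hlC _ (h r hr)]
  apply hl
  rw [hq, hq0, eval_zero]

variable {gr P : ℕ → Submodule K V} {M : ℕ} {h e : Module.End K V}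

section

variable (S : Setup gr P M h e)

include S

/-- Both lowering operators, with the formula for the second one. -/
theorem exists_both [Module.Finite K V] : ∃ Λ Λ' : Module.End K V,
    Sl2 (Ha S.igr S.iP M) h Λ ∧ Sl2 (wt S.iP M) (top S.iP M e) Λ' ∧ IsHom P (-2) Λ' ∧
      Sl2 (wt S.igr M) (h + top S.iP M e) (Λ + Λ') ∧ Λ * Λ' = Λ' * Λ ∧
      (∀ p, proj S.iP p * Λ = Λ * proj S.iP p) ∧
      (Ha S.igr S.iP M * Λ' = Λ' * Ha S.igr S.iP M) ∧
      ∀ i ≤ M, ∀ a ∈ P i, ((top S.iP M e) ^ (M - i + 1)) a = 0 → ∀ j ≤ M - i,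
        Λ' (((top S.iP M e) ^ j) a) =
          ((j : K) * (((M - i : ℕ) : K) - j + 1)) • ((top S.iP M e) ^ (j - 1)) a := by
  obtain ⟨Λ, t1⟩ := S.exists_sl2_h
  obtain ⟨Λ', t2, hΛ', hform⟩ := exists_sl2 S.iP S.isHomP_top S.bP S.rl
  have hwh : wt S.iP M * h = h * wt S.iP M := by
    have := S.isHomP_h.wt_comm S.iP M
    rw [this]; simp
  have hwHa : wt S.iP M * Ha S.igr S.iP M = Ha S.igr S.iP M * wt S.iP M := by
    rw [Ha, mul_sub, sub_mul, S.wt_wt]
  have c1 : h * Λ' = Λ' * h := comm_f t2 hwh.symm S.h_top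
  have c2 : top S.iP M e * Λ = Λ * top S.iP M e := comm_f t1 S.Ha_top.symm S.h_top.symm
  have c3 : wt S.iP M * Λ = Λ * wt S.iP M := comm_f t1 hwHa hwh
  have c4 : Ha S.igr S.iP M * Λ' = Λ' * Ha S.igr S.iP M := comm_f t2 hwHa.symm S.Ha_top
  have c5 : Λ * Λ' = Λ' * Λ := comm_f t2 c3.symm c2.symm
  have t := Sl2.add t1 t2 S.Ha_top c4 hwh.symm c1 c3.symm c2.symm
  have h1 : Ha S.igr S.iP M + wt S.iP M = wt S.igr M := by rw [Ha, sub_add_cancel]
  refine ⟨Λ, Λ', t1, t2, hΛ', h1 ▸ t, c5, fun p => ?_, c4, hform⟩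
  exact comm_f t1 (S.Ha_projP p).symm (S.projP_h p)

/-- The hard Lefschetz theorem bounds the weights of the base from below. -/
lemma base_low {m : ℕ} (hm : h ^ (m + 1) = 0) {p j : ℕ} (hpj : j + m < p) {x : V}
    (hx : x ∈ P p) (hxj : x ∈ gr j) : x = 0 := by
  apply (S.hl p j (by omega)).1 x ⟨hx, hxj⟩
  rw [show p - j = (m + 1) + (p - j - (m + 1)) by omega, pow_add, hm, zero_mul,
    LinearMap.zero_apply]

/-- The hard Lefschetz theorem bounds the weights of the base from above. -/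
lemma base_high {m : ℕ} (hm : h ^ (m + 1) = 0) {p j : ℕ} (hpj : p + m < j) {x : V}
    (hx : x ∈ P p) (hxj : x ∈ gr j) : x = 0 := by
  by_cases h2 : 2 * p < j
  · have h3 : x ∈ P p ⊓ gr j := ⟨hx, hxj⟩
    rw [S.van p j h2] at h3
    exact (Submodule.mem_bot _).1 h3
  · obtain ⟨a, ⟨ha, ha'⟩, hax⟩ := (S.hl p (2 * p - j) (by omega)).2 x
      ⟨hx, by rw [show 2 * p - (2 * p - j) = j by omega]; exact hxj⟩
    rw [← hax, base_low S hm (p := p) (j := 2 * p - j) (by omega) ha ha', map_zero]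

lemma h_pow_mem {p c : ℕ} {x : V} (hx : x ∈ P p) : (h ^ c) x ∈ P p := by
  induction c with
  | zero => simpa using hx
  | succ c ih => rw [pow_succ', Module.End.mul_apply]; exact S.hP p _ ih

/-- Multiplication by the top power of `h` sees only the part of lowest base weight. -/
lemma h_pow_low {m : ℕ} (hm : h ^ (m + 1) = 0) {j : ℕ} {x : V} (hx : x ∈ gr j) :
    (h ^ m) x = (h ^ m) (proj S.iP (j + m) x) := by
  have key : ∀ p, p ≠ j + m → (h ^ m) (proj S.iP p x) = 0 := by
    intro p hp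
    have h1 : proj S.iP p x ∈ P p := proj_mem S.iP p x
    have h2 : proj S.iP p x ∈ gr j := S.projP_gr hx p
    rcases lt_or_gt_of_ne hp with hlt | hgt
    · apply base_high S hm (p := p) (j := j + 2 * m) (by omega) (h_pow_mem S h1)
      exact pow_L_mem S.hgr h2 m
    · rw [base_low S hm (p := p) (j := j) (by omega) h1 h2, map_zero]
  conv_lhs => rw [S.sumP x]
  rw [map_sum]
  by_cases hr : j + m < 2 * M + 1
  · rw [Finset.sum_eq_single (j + m)]
    · intro p _ hp; exact key p hp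
    · intro h'; exact absurd (Finset.mem_range.2 hr) h'
  · have h1 := proj_mem S.iP (j + m) x
    rw [S.bP _ (by omega)] at h1
    rw [(Submodule.mem_bot _).1 h1, map_zero]
    apply Finset.sum_eq_zero
    intro p hp
    exact key p (by have := Finset.mem_range.1 hp; omega)

end

end Pool.Agent.Y106.Fib
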