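import Pool.Agent.Y106.Fib.Alg

/-!
# The limit theorem
-/

open Finset Polynomial

set_option linter.unusedSectionVars false

namespace Pool.Agent.Y106.Fib

open Pool.Agent.H914 Pool.Agent.H447 Pool.Agent.W498.Dom

variable {K : Type*} [Field K] [CharZero K] {V : Type*} [AddCommGroup V] [Module K V]
variable {gr P : ℕ → Submodule K V} {M : ℕ} {h e : Module.End K V}

section

variable (S : Setup gr P M h e)

include S

/-- Almost all members of the pencil satisfy hard Lefschetz. -/
theorem generic_hardLef [Module.Finite K V]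
    (hdim : ∀ c ≤ M, Module.finrank K (gr (M - c)) = Module.finrank K (gr (M + c))) :
    ∃ p : K[X], p ≠ 0 ∧ ∀ s, p.eval s ≠ 0 → s ≠ 0 → HardLef gr M (h + s ^ 2 • e) := by
  obtain ⟨Λ, Λ', -, -, -, t, -⟩ := exists_both S
  have hG : ∀ c' : ℕ, ∃ p : K[X], p ≠ 0 ∧ ∀ s, p.eval s ≠ 0 →
      ∀ v ∈ gr (M - c'), c' ≤ M → (LL S.iP M h e s ^ c') v = 0 → v = 0 := by
    intro c'
    by_cases hc' : c' ≤ M
    · set G : K → gr (M - c') →ₗ[K] V := fun s =>
        (LL S.iP M h e s ^ c') ∘ₗ (gr (M - c')).subtype with hG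
      have hGf : PFam G := fun x => (S.pvec_LL.pfam.pow c') x
      have hG0 : Function.Injective (G 0) := by
        rw [← LinearMap.ker_eq_bot, LinearMap.ker_eq_bot']
        intro y hy
        apply Subtype.ext
        rw [hG] at hy
        simp only [LinearMap.comp_apply, Submodule.subtype_apply] at hy
        rw [S.LL_zero] at hy
        apply e_pow_inj t (c := c') _ hy
        rw [wt_apply S.igr M y.2]
        congr 1
        rw [Nat.cast_sub hc']
        ring
      obtain ⟨p, hp, hp'⟩ := hGf.generic_inj hG0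
      refine ⟨p, hp, fun s hs v hv _ h0 => ?_⟩
      have h3 := hp' s hs
      rw [← LinearMap.ker_eq_bot, LinearMap.ker_eq_bot'] at h3
      exact congrArg Subtype.val (h3 ⟨v, hv⟩ h0)
    · exact ⟨1, one_ne_zero, fun s _ v _ h' => absurd h' hc'⟩
  choose pG hpG hpG' using hG
  refine ⟨∏ c' ∈ range (M + 1), pG c', Finset.prod_ne_zero_iff.2 (fun c' _ => hpG c'),
    fun s hs hs0 => ?_⟩
  rw [eval_prod] at hs
  apply S.hardLef_of_inj hdim hs0
  intro c' hc' v hv h0
  exact hpG' c' s (Finset.prod_ne_zero_iff.1 hs c' (Finset.mem_range.2 (by omega))) v hv hc' h0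

/-- The conjugate of a power. -/
lemma conj_pow {s : K} (hs : s ≠ 0) (f : Module.End K V) (c : ℕ) :
    (scal S.iP (fun p => (s ^ p)⁻¹) * f * scal S.iP (fun p => s ^ p)) ^ c =
      scal S.iP (fun p => (s ^ p)⁻¹) * f ^ c * scal S.iP (fun p => s ^ p) := by
  set D := scal S.iP (fun p => s ^ p) with hD
  set D' := scal S.iP (fun p => (s ^ p)⁻¹) with hD'
  have hDD' : D * D' = 1 := S.scal_inv hs
  induction c with
  | zero => rw [pow_zero, pow_zero, mul_one, hD, hD', S.inv_scal hs]
  | succ j ih =>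
    rw [pow_succ, ih, pow_succ]
    calc D' * f ^ j * D * (D' * f * D) = D' * f ^ j * (D * D') * f * D := by noncomm_ring
      _ = _ := by rw [hDD']; noncomm_ring

/-- The component of lowest base weight of the powers of the rescaled lowering operators. -/
lemma proj_conj {s : K} (hs : s ≠ 0) (f : Module.End K V) (c : ℕ) {p p' a : ℕ}
    (hp : p = p' + a) {x : V} (hx : x ∈ P p) :
    proj S.iP p' (((scal S.iP (fun p => (s ^ p)⁻¹) * f * scal S.iP (fun p => s ^ p)) ^ c) x) =
      s ^ a • proj S.iP p' ((f ^ c) x) := by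
  rw [conj_pow S hs, Module.End.mul_apply, Module.End.mul_apply, scal_apply S.iP _ hx, map_smul,
    map_smul, map_smul]
  have h3 : ∀ y, proj S.iP p' (scal S.iP (fun p => (s ^ p)⁻¹) y) =
      (s ^ p')⁻¹ • proj S.iP p' y := by
    intro y
    rw [← Module.End.mul_apply, proj, scal_mul, ← LinearMap.smul_apply]
    congr 1
    apply gr_ext S.iP
    intro q v hv
    rw [scal_apply S.iP _ hv, LinearMap.smul_apply, scal_apply S.iP _ hv]
    by_cases hq : q = p'
    · subst hq; simp
    · simp [hq]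
  rw [h3, smul_smul]
  congr 1
  subst hp
  rw [pow_add]
  have : s ^ p' ≠ 0 := pow_ne_zero _ hs
  field_simp

end

/-- A graded family of subspaces (the classes of algebraic cycles) stable under the lowering
operators of the members of the pencil with parameters in `T`. -/
structure Stable (gr : ℕ → Submodule K V) (M : ℕ) (h e : Module.End K V)
    (igr : DirectSum.IsInternal gr) (C : ℕ → Submodule K V) (T : Set K) : Prop where
  deg : ∀ a, C a ≤ gr (2 * a)
  hmem : ∀ a, ∀ x ∈ C a, h x ∈ C (a + 1)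
  inf : T.Infinite
  lower : ∀ s ∈ T, s ≠ 0 → HardLef gr M (h + s ^ 2 • e) → ∃ f : Module.End K V,
    Sl2 (wt igr M) (h + s ^ 2 • e) f ∧ ∀ a, ∀ x ∈ C (a + 1), f x ∈ C a

section

variable (S : Setup gr P M h e) {C : ℕ → Submodule K V} {TT : Set K}
  (T : Stable gr M h e S.igr C TT)

include S T

lemma Stable.h_pow {a : ℕ} (c : ℕ) {x : V} (hx : x ∈ C a) : (h ^ c) x ∈ C (a + c) := by
  induction c with
  | zero => simpa using hx
  | succ c ih => rw [pow_succ', Module.End.mul_apply]; exact T.hmem _ _ ih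

/-- **The limit theorem.** For the class `U` of an algebraic cycle the relative lowering operator
maps the component of lowest base weight of `U` to the component of lowest base weight of a
combination of classes of algebraic cycles. -/
theorem limit [Module.Finite K V]
    (hdim : ∀ c ≤ M, Module.finrank K (gr (M - c)) = Module.finrank K (gr (M + c)))
    {m : ℕ} (hm : h ^ (m + 1) = 0) {Λ Λ' : Module.End K V}
    (t1 : Sl2 (Ha S.igr S.iP M) h Λ) (hΛ' : IsHom P (-2) Λ')
    (t : Sl2 (wt S.igr M) (h + top S.iP M e) (Λ + Λ')) (hc : Λ * Λ' = Λ' * Λ)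
    (hΛP : ∀ p, proj S.iP p * Λ = Λ * proj S.iP p)
    {a b : ℕ} {U : V} (hU : U ∈ C (a + b)) :
    ∃ y ∈ C a, proj S.iP (2 * a + m) y = (Λ' ^ b) (proj S.iP (2 * (a + b) + m) U) := by
  obtain ⟨q, A, hq, hA, hqA⟩ := S.exists_family
  obtain ⟨pg, hpg, hpg'⟩ := generic_hardLef S hdim
  set U0 := proj S.iP (2 * (a + b) + m) U with hU0
  have hUg := T.deg _ hU
  set x := (h ^ m) U with hx
  have hxU0 : x = (h ^ m) U0 := by
    rw [hx, hU0]; exact h_pow_low S hm hUg
  have hxC : x ∈ C (a + b + m) := Stable.h_pow S T m hU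
  have hU0P : U0 ∈ P (2 * (a + b) + m) := proj_mem _ _ _
  have hU0g : U0 ∈ gr (2 * (a + b)) := S.projP_gr hUg _
  have hxP : x ∈ P (2 * (a + b) + m) := by rw [hxU0]; exact h_pow_mem S hU0P
  -- the polynomial family
  set W := (C a).map (proj S.iP (2 * a + m)) with hW
  set v : K → V := fun s => proj S.iP (2 * a + m) ((A s ^ (m + b)) x) with hv
  have hvP : PVec v := ((hA.pfam.pow (m + b)) x).map _
  have hgood : ∀ s ∈ TT \ {s | (X * pg).eval s = 0}, v s ∈ W := by
    rintro s ⟨hsT, hs⟩
    rw [Set.mem_setOf_eq, eval_mul, eval_X] at hs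
    have hs0 : s ≠ 0 := left_ne_zero_of_mul hs
    obtain ⟨f, tf, hf⟩ := T.lower s hsT hs0 (hpg' s (right_ne_zero_of_mul hs) hs0)
    have hfpow : ∀ c a', ∀ y ∈ C (a' + c), (f ^ c) y ∈ C a' := by
      intro c
      induction c with
      | zero => intro a' y hy; simpa using hy
      | succ c ih =>
        intro a' y hy
        rw [pow_succ, Module.End.mul_apply]
        exact ih a' _ (hf _ _ (by rwa [← add_assoc] at hy))
    have hAs := hqA s _ (S.sl2_conj hs0 tf)
    have h1 : v s = (q.eval s ^ (m + b) * s ^ (2 * b)) •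
        proj S.iP (2 * a + m) ((f ^ (m + b)) x) := by
      simp only [hv]
      rw [← hAs, _root_.smul_pow, LinearMap.smul_apply, map_smul,
        proj_conj S hs0 f (m + b) (p := 2 * (a + b) + m) (p' := 2 * a + m) (a := 2 * b)
          (by ring) hxP, smul_smul]
    rw [h1]
    refine Submodule.smul_mem _ _ (Submodule.mem_map.2 ⟨_, hfpow (m + b) a _ ?_, rfl⟩)
    rw [show a + (m + b) = a + b + m by ring]
    exact hxC
  have hinf : (TT \ {s | (X * pg).eval s = 0}).Infinite :=
    T.inf.diff (Polynomial.finite_setOf_isRoot (mul_ne_zero X_ne_zero hpg))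
  have h0 : v 0 ∈ W := pvec_mem hvP W hinf hgood 0
  -- the value at zero
  have hA0 : A 0 = q.eval 0 • (Λ + Λ') := (hqA 0 (Λ + Λ') (by rw [S.LL_zero]; exact t)).symm
  have hΛU0 : Λ U0 = 0 := by
    have h2 : Ha S.igr S.iP M (Λ U0) = (((2 * (a + b) : ℕ) : K) - (2 * (a + b) + m : ℕ) - 2) •
        Λ U0 := by
      have h3 := congrArg (fun F => F U0) t1.hf
      simp only [LinearMap.sub_apply, Module.End.mul_apply, LinearMap.neg_apply] at h3
      rw [S.Ha_apply hU0P hU0g, map_smul] at h3
      have h4 : (2 : Module.End K V) (Λ U0) = (2 : K) • Λ U0 := by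
        rw [two_smul, ← one_add_one_eq_two, LinearMap.add_apply, Module.End.one_apply]
      rw [h4] at h3
      rw [sub_smul, ← sub_eq_zero]
      rw [← sub_eq_zero] at h3
      rw [← h3]
      abel
    have hΛmem' : ∀ {p : ℕ} {y : V}, y ∈ P p → Λ y ∈ P p := by
      intro p y hy
      have h5 := congrArg (fun F => F y) (hΛP p)
      simp only [Module.End.mul_apply] at h5
      rw [proj_same S.iP hy] at h5
      rw [← h5]; exact proj_mem _ _ _
    have h4 : Λ U0 ∈ P (2 * (a + b) + m) := hΛmem' hU0P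
    have h5 : wt S.igr M (Λ U0) = ((((2 * (a + b) : ℕ) : ℤ) - 2 : ℤ) - (M : K)) • Λ U0 := by
      have h6 : wt S.igr M (Λ U0) = Ha S.igr S.iP M (Λ U0) + wt S.iP M (Λ U0) := by
        rw [← LinearMap.add_apply, Ha, sub_add_cancel]
      rw [h6, h2, wt_apply S.iP M h4, ← add_smul]
      congr 1
      push_cast; ring
    have h6 := mem_of_wt S.igr S.bgr h5
    by_cases hab : (2 : ℤ) ≤ ((2 * (a + b) : ℕ) : ℤ)
    · rw [show ((2 * (a + b) : ℕ) : ℤ) - 2 = ((2 * (a + b) - 2 : ℕ) : ℤ) by omega,
        grZ_natCast] at h6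
      exact base_low S hm (p := 2 * (a + b) + m) (by omega) h4 h6
    · rw [grZ_of_neg (by omega)] at h6
      exact (Submodule.mem_bot _).1 h6
  -- the string of `h`
  obtain ⟨κ, hκ, hκ'⟩ : ∃ κ : K, κ ≠ 0 ∧ (Λ ^ m) x = κ • U0 := by
    obtain ⟨c, hc0, hc1⟩ := e_pow_f_pow t1.neg_swap (w := U0) (M := m)
      (by
        rw [LinearMap.neg_apply, S.Ha_apply hU0P hU0g, ← neg_smul]
        congr 1
        push_cast; ring)
      (by rw [LinearMap.neg_apply, hΛU0, neg_zero]) (k := m) le_rfl m le_rfl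
    rw [Nat.sub_self, pow_zero, Module.End.one_apply] at hc1
    have e1 : ∀ (T : Module.End K V) (j : ℕ) (y : V), ((-T) ^ j) y = ((-1 : K) ^ j) • (T ^ j) y := by
      intro T j y
      rw [neg_pow, Module.End.mul_apply]
      have : ((-1 : Module.End K V) ^ j) ((T ^ j) y) = ((-1 : K) ^ j) • (T ^ j) y := by
        rcases Nat.even_or_odd j with h' | h'
        · rw [h'.neg_one_pow, h'.neg_one_pow, Module.End.one_apply, one_smul]
        · rw [h'.neg_one_pow, h'.neg_one_pow, LinearMap.neg_apply, Module.End.one_apply,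
            neg_one_smul]
      rw [this]
    rw [e1, e1, map_smul, smul_smul, ← pow_add, ← two_mul, pow_mul, neg_one_sq, one_pow,
      one_smul, ← hxU0] at hc1
    exact ⟨(c : K), by exact_mod_cast hc0, hc1⟩
  have hΛmem : ∀ {p : ℕ} {y : V}, y ∈ P p → Λ y ∈ P p := by
    intro p y hy
    have h5 := congrArg (fun F => F y) (hΛP p)
    simp only [Module.End.mul_apply] at h5
    rw [proj_same S.iP hy] at h5
    rw [← h5]; exact proj_mem _ _ _
  have hΛpow : ∀ (c : ℕ) {p : ℕ} {y : V}, y ∈ P p → (Λ ^ c) y ∈ P p := by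
    intro c
    induction c with
    | zero => intro p y hy; simpa using hy
    | succ c ih => intro p y hy; rw [pow_succ', Module.End.mul_apply]; exact hΛmem (ih hy)
  -- the binomial expansion
  have hbin : proj S.iP (2 * a + m) (((Λ + Λ') ^ (m + b)) x) =
      (((m + b).choose m : ℕ) : K) • (Λ' ^ b) ((Λ ^ m) x) := by
    have hcomm : Commute Λ Λ' := hc
    rw [hcomm.add_pow, LinearMap.sum_apply, map_sum, Finset.sum_eq_single m]
    · rw [Module.End.mul_apply, show m + b - m = b by omega]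
      have e2 : (Λ ^ m * Λ' ^ b) = Λ' ^ b * Λ ^ m := (hcomm.pow_pow m b).eq
      rw [e2]
      have e3 : ∀ (n : ℕ) (y : V), ((n : Module.End K V)) y = (n : K) • y := by
        intro n y
        rw [← nsmul_one, LinearMap.smul_apply, Module.End.one_apply, Nat.cast_smul_eq_nsmul]
      rw [e3, map_smul, map_smul, Module.End.mul_apply]
      congr 1
      have h6 : (Λ' ^ b) ((Λ ^ m) x) ∈ P (2 * a + m) := by
        have h7 := (hΛ'.pow b) ((2 * (a + b) + m : ℕ) : ℤ) ((Λ ^ m) x) (by
          rw [grZ_natCast]; exact hΛpow m hxP)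
        rwa [show ((2 * (a + b) + m : ℕ) : ℤ) + (b : ℤ) * -2 = ((2 * a + m : ℕ) : ℤ) by
          push_cast; ring, grZ_natCast] at h7
      exact proj_same S.iP h6
    · intro k hk hkm
      have hk' : k ≤ m + b := by have := Finset.mem_range.1 hk; omega
      have e3 : ∀ (n : ℕ) (y : V), ((n : Module.End K V)) y = (n : K) • y := by
        intro n y
        rw [← nsmul_one, LinearMap.smul_apply, Module.End.one_apply, Nat.cast_smul_eq_nsmul]
      rw [Module.End.mul_apply, e3, map_smul, map_smul, Module.End.mul_apply]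
      have h7 : (Λ' ^ (m + b - k)) x ∈
          grZ P (((2 * (a + b) + m : ℕ) : ℤ) + ((m + b - k : ℕ) : ℤ) * -2) :=
        (hΛ'.pow (m + b - k)) _ x (by rw [grZ_natCast]; exact hxP)
      have h8 : proj S.iP (2 * a + m) ((Λ ^ k) ((Λ' ^ (m + b - k)) x)) = 0 := by
        by_cases hneg : ((2 * (a + b) + m : ℕ) : ℤ) + ((m + b - k : ℕ) : ℤ) * -2 < 0
        · rw [grZ_of_neg hneg] at h7
          rw [(Submodule.mem_bot _).1 h7, map_zero, map_zero]
        · obtain ⟨p, hp⟩ := Int.eq_ofNat_of_zero_le (not_lt.1 hneg)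
          rw [hp, grZ_natCast] at h7
          exact proj_ne S.iP (hΛpow k h7) (by omega)
      rw [h8, smul_zero]
    · intro h'; exact absurd (Finset.mem_range.2 (by omega)) h'
  have hv0 : v 0 = (q.eval 0 ^ (m + b) * ((((m + b).choose m : ℕ) : K) * κ)) • (Λ' ^ b) U0 := by
    simp only [hv]
    rw [hA0, _root_.smul_pow, LinearMap.smul_apply, map_smul, hbin, hκ', map_smul, smul_smul,
      smul_smul, mul_assoc]
  have hne : q.eval 0 ^ (m + b) * ((((m + b).choose m : ℕ) : K) * κ) ≠ 0 := by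
    apply mul_ne_zero (pow_ne_zero _ hq)
    apply mul_ne_zero _ hκ
    exact_mod_cast (Nat.choose_pos (by omega)).ne'
  have h9 : (Λ' ^ b) U0 ∈ W := by
    have := Submodule.smul_mem W (q.eval 0 ^ (m + b) * ((((m + b).choose m : ℕ) : K) * κ))⁻¹ h0
    rwa [hv0, smul_smul, inv_mul_cancel₀ hne, one_smul] at this
  obtain ⟨y, hy, hy'⟩ := Submodule.mem_map.1 h9
  exact ⟨y, hy, hy'⟩

end

end Pool.Agent.Y106.Fib
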