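import Pool.Agent.Y106.Fib.Limit
import Pool.Agent.H447R3.AoA

/-!
# Semilinear maps intertwining the relative lowering operator
-/

open Finset Polynomial

set_option linter.unusedSectionVars false

namespace Pool.Agent.Y106.Fib

open Pool.Agent.H914 Pool.Agent.H447 Pool.Agent.W498.Dom

variable {K : Type*} [Field K] [CharZero K] {V : Type*} [AddCommGroup V] [Module K V]
  {K' : Type*} [Field K'] [CharZero K'] {U : Type*} [AddCommGroup U] [Module K' U]
  {gr P : ℕ → Submodule K V} {M : ℕ} {h e : Module.End K V}

/-- A semilinear map which intertwines the relative Lefschetz operator with the raising operator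
of a triple intertwines the lowering operators. -/
theorem intertwine_lower [Module.Finite K' U] (S : Setup gr P M h e) {σ : K →+* K'}
    (φ : V →ₛₗ[σ] U) {HU eU fU : Module.End K' U} (t : Sl2 HU eU fU)
    (hφH : ∀ p, ∀ x ∈ P p, HU (φ x) = ((p : K') - M) • φ x)
    (hφe : ∀ x, φ (top S.iP M e x) = eU (φ x)) {Λ' : Module.End K V}
    (hform : ∀ i ≤ M, ∀ a ∈ P i, ((top S.iP M e) ^ (M - i + 1)) a = 0 → ∀ j ≤ M - i,
        Λ' (((top S.iP M e) ^ j) a) =
          ((j : K) * (((M - i : ℕ) : K) - j + 1)) • ((top S.iP M e) ^ (j - 1)) a) (x : V) :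
    φ (Λ' x) = fU (φ x) := by
  have hpow : ∀ (j : ℕ) (y : V), φ ((top S.iP M e ^ j) y) = (eU ^ j) (φ y) := by
    intro j
    induction j with
    | zero => intro y; simp
    | succ j ih => intro y; rw [pow_succ', pow_succ', Module.End.mul_apply, Module.End.mul_apply,
        hφe, ih]
  refine lef_induction' S.iP S.isHomP_top S.bP S.rl (p := fun x => φ (Λ' x) = fU (φ x)) ?_ ?_ x
  · intro a b ha hb
    simp only [map_add, ha, hb]
  · intro i hi a ha h0 j
    have h1 : HU (φ a) = -((M - i : ℕ) : K') • φ a := by
      rw [hφH i a ha, Nat.cast_sub hi]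
      congr 1
      ring
    have h2 : (eU ^ (M - i + 1)) (φ a) = 0 := by rw [← hpow, h0, map_zero]
    have h3 : fU (φ a) = 0 := Sl2.f_eq_zero t h1 h2
    by_cases hj : j ≤ M - i
    · rw [hform i hi a ha h0 j hj, hpow, map_smulₛₗ, hpow]
      rcases j with _ | j
      · simp [h3]
      · rw [Sl2.f_e_pow t h3 h1 j]
        congr 1
        simp only [map_mul, map_add, map_sub, map_natCast, map_one]
        push_cast
        ring
    · have h4 : (top S.iP M e ^ j) a = 0 := by
        rw [show j = (j - (M - i + 1)) + (M - i + 1) by omega, pow_add, Module.End.mul_apply, h0,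
          map_zero]
      rw [h4, map_zero, map_zero, map_zero]

end Pool.Agent.Y106.Fib
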